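import Pool.Agent.H522.W2.Strip

/-!
# Evaluation of the number of linear extensions
-/

set_option autoImplicit false

namespace Pool.Agent.H522.W2

theorem beqT {a b : ℕ} (h : a = b) : Nat.beq a b = true := by subst h; simp

theorem beqF {a b : ℕ} (h : a ≠ b) : Nat.beq a b = false := by
  rw [Bool.eq_false_iff]
  exact fun hb => h (Nat.eq_of_beq_eq_true hb)

/-- sums of neighbours -/
def adj : List ℕ → List ℕ
  | a :: b :: l => (a + b) :: adj (b :: l)
  | _ => []

theorem adj_spec : ∀ (u : List ℕ), (adj u).length = u.length - 1 ∧
    ∀ t, t + 1 < u.length → (adj u).getD t 0 = u.getD t 0 + u.getD (t + 1) 0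
  | [] => by simp [adj]
  | [a] => by simp [adj]
  | a :: b :: l => by
    obtain ⟨h1, h2⟩ := adj_spec (b :: l)
    refine ⟨?_, ?_⟩
    · simp only [adj, List.length_cons, h1]
      simp
    · intro t ht
      rcases t with _ | t
      · simp [adj]
      · simp only [adj, List.getD_cons_succ]
        have := h2 t (by simpa using ht)
        rw [this]
        simp

/-- one step -/
def stepv (v : List ℕ) (p q : Bool) : List ℕ :=
  adj ((bif p then 0 :: v else v) ++ (bif q then [] else [0]))

/-- the vector of the numbers of linear extensions at the level `N - k` -/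
def vec (N : ℕ) (lo hi : ℕ → ℕ) : ℕ → List ℕ
  | 0 => [1]
  | k + 1 => stepv (vec N lo hi k) (Nat.beq (lo (N - k)) (lo (N - (k + 1)) + 1))
      (Nat.beq (hi (N - k)) (hi (N - (k + 1)) + 1))

variable {m n : ℕ} {lo hi : ℕ → ℕ}

theorem vec_spec (h : IsStrip m n lo hi) (k : ℕ) : ∀ d, d + k = m + n →
    (vec (m + n) lo hi k).length = hi d - lo d + 1 ∧
    ∀ i, lo d ≤ i → i ≤ hi d → (vec (m + n) lo hi k).getD (i - lo d) 0 = cnt m n lo hi k i (d - i) := by
  induction k with
  | zero =>
    intro d hd
    have : d = m + n := by omega
    subst this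
    refine ⟨by simp [vec, h.loN, h.hiN], fun i h1 h2 => ?_⟩
    rw [h.loN] at h1 ⊢
    rw [h.hiN] at h2
    have : i = m := by omega
    subst this
    simp [vec, cnt, gen]
  | succ k ih =>
    intro d hd
    obtain ⟨hlen, hv⟩ := ih (d + 1) (by omega)
    have hl1 := h.lom d (by omega)
    have hl2 := h.lol d (by omega)
    have hh1 := h.him d (by omega)
    have hh2 := h.hil d (by omega)
    have hle := h.le d (by omega)
    have hle' := h.le (d + 1) (by omega)
    have e1 : m + n - k = d + 1 := by omega
    have e2 : m + n - (k + 1) = d := by omega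
    set v := vec (m + n) lo hi k with hvdef
    have hvec : vec (m + n) lo hi (k + 1) = stepv v (Nat.beq (lo (d + 1)) (lo d + 1))
        (Nat.beq (hi (d + 1)) (hi d + 1)) := by
      simp only [vec, e1, e2, ← hvdef]
    set u : List ℕ := (bif Nat.beq (lo (d + 1)) (lo d + 1) then 0 :: v else v) ++
      (bif Nat.beq (hi (d + 1)) (hi d + 1) then [] else [0]) with hu
    have hul : u.length = hi d - lo d + 2 := by
      rw [hu, List.length_append]
      by_cases c1 : lo (d + 1) = lo d + 1 <;> by_cases c2 : hi (d + 1) = hi d + 1
      · have b1 : Nat.beq (lo (d + 1)) (lo d + 1) = true := beqT c1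
        have b2 : Nat.beq (hi (d + 1)) (hi d + 1) = true := beqT c2
        simp only [b1, b2, cond_true, List.length_cons, List.length_nil, hlen]; omega
      · have b1 : Nat.beq (lo (d + 1)) (lo d + 1) = true := beqT c1
        have b2 : Nat.beq (hi (d + 1)) (hi d + 1) = false := by
          exact beqF c2
        simp only [b1, b2, cond_true, cond_false, List.length_cons, List.length_nil, hlen]; omega
      · have b1 : Nat.beq (lo (d + 1)) (lo d + 1) = false := by
          exact beqF c1
        have b2 : Nat.beq (hi (d + 1)) (hi d + 1) = true := beqT c2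
        simp only [b1, b2, cond_true, cond_false, List.length_nil, hlen]; omega
      · have b1 : Nat.beq (lo (d + 1)) (lo d + 1) = false := by
          exact beqF c1
        have b2 : Nat.beq (hi (d + 1)) (hi d + 1) = false := by
          exact beqF c2
        simp only [b1, b2, cond_false, List.length_cons, List.length_nil, hlen]; omega
    -- the entries of `u`
    have happ : ∀ (w : List ℕ) (b : Bool) (t : ℕ), (w ++ (bif b then [] else [0])).getD t 0 = w.getD t 0 := by
      intro w b t
      cases b
      · simp only [cond_false]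
        rcases lt_or_ge t w.length with ht | ht
        · rw [List.getD_append _ _ _ _ ht]
        · rw [List.getD_append_right _ _ _ _ ht, List.getD_eq_default w 0 ht]
          rcases t - w.length with _ | s
          · simp
          · simp
      · simp
    have hug : ∀ i, lo d ≤ i → u.getD (i - lo d) 0 =
        if lo (d + 1) ≤ i then v.getD (i - lo (d + 1)) 0 else 0 := by
      intro i hi'
      rw [hu, happ]
      by_cases c1 : lo (d + 1) = lo d + 1
      · have b1 : Nat.beq (lo (d + 1)) (lo d + 1) = true := beqT c1
        simp only [b1, cond_true]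
        by_cases hi2 : lo (d + 1) ≤ i
        · rw [if_pos hi2]
          obtain ⟨s, hs⟩ : ∃ s, i - lo d = s + 1 := ⟨i - lo d - 1, by omega⟩
          rw [hs, List.getD_cons_succ]
          congr 1; omega
        · rw [if_neg hi2]
          have : i - lo d = 0 := by omega
          rw [this, List.getD_cons_zero]
      · have b1 : Nat.beq (lo (d + 1)) (lo d + 1) = false := by
          exact beqF c1
        have c2 : lo (d + 1) = lo d := by omega
        rw [b1, cond_false, if_pos (by omega), c2]
    obtain ⟨ha1, ha2⟩ := adj_spec u
    have hvec' : vec (m + n) lo hi (k + 1) = adj u := hvec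
    rw [hvec']
    refine ⟨by rw [ha1, hul]; omega, fun i h1 h2 => ?_⟩
    rw [ha2 _ (by rw [hul]; omega), show i - lo d + 1 = (i + 1) - lo d by omega, hug i h1,
      hug (i + 1) (by omega), if_pos (by omega : lo (d + 1) ≤ i + 1),
      cnt_succ h k i (d - i) ?_]
    · have hid : i ≤ d := by
        have h3 := h.hi_lip (d := 0) (e := d) (by omega) (by omega)
        rw [h.hi0] at h3
        omega
      have e3 : i + (d - i) + 1 = d + 1 := by omega
      rw [e3, add_comm]
      congr 1
      · by_cases hc : i + 1 ≤ hi (d + 1)
        · rw [if_pos hc, hv (i + 1) (by omega) hc]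
          congr 1; omega
        · rw [if_neg hc]
          apply List.getD_eq_default
          rw [hlen]; omega
      · by_cases hc : lo (d + 1) ≤ i
        · rw [if_pos hc, if_pos hc, hv i hc (by omega)]
          congr 1; omega
        · rw [if_neg hc, if_neg hc]
    · have h3 := h.hi_lip (d := 0) (e := d) (by omega) (by omega)
      rw [h.hi0] at h3
      omega

/-- the number of the linear extensions -/
def total (N : ℕ) (lo hi : ℕ → ℕ) : ℕ := (vec N lo hi N).getD 0 0

theorem card_ext_total (h : IsStrip m n lo hi) :
    Nat.card (Ext (leRel (m := m) (n := n) lo hi)) = total (m + n) lo hi := by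
  rw [card_ext_strip h, total]
  have := (vec_spec h (m + n) 0 (by omega)).2 0 (by simp [h.lo0]) (by simp)
  rw [h.lo0] at this
  simpa using this.symm

/-- the boundary for the additional relation `a_x < b_y` -/
def lo' (lo : ℕ → ℕ) (x y d : ℕ) : ℕ := max (lo d) (min (x + 1) (d - y))

theorem strip_lo' (h : IsStrip m n lo hi) (x y : ℕ) (hx : x < m) (hy : y < n)
    (hxy : x + 1 ≤ hi (x + y + 1)) : IsStrip m n (lo' lo x y) hi := by
  refine ⟨?_, h.hi0, ?_, h.hiN, ?_, ?_, h.him, h.hil, ?_⟩
  · simp [lo', h.lo0]
  · simp only [lo', h.loN]; omega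
  · intro d hd
    have := h.lom d hd
    simp only [lo']; omega
  · intro d hd
    have := h.lol d hd
    simp only [lo']; omega
  · intro d hd
    have h1 := h.le d hd
    simp only [lo']
    rcases le_total (x + y + 1) d with h2 | h2
    · have := h.hi_mono h2 hd
      omega
    · have := h.hi_lip h2 (by omega)
      omega

/-- The number of the linear extensions in which `a_x` comes before `b_y`. -/
theorem card_before (h : IsStrip m n lo hi) (x : Fin m) (y : Fin n) (hxy : x.1 + 1 ≤ hi (x.1 + y.1 + 1)) :
    Nat.card {e : Ext (leRel (m := m) (n := n) lo hi) // e.1 (Sum.inl x) < e.1 (Sum.inr y)} =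
      total (m + n) (lo' lo x.1 y.1) hi := by
  classical
  rw [← card_ext_total (strip_lo' h x.1 y.1 x.2 y.2 hxy)]
  refine Nat.card_congr ?_
  unfold Ext
  refine (Equiv.subtypeSubtypeEquivSubtypeInter (fun e : (Fin m ⊕ Fin n) ≃ Fin (Fintype.card (Fin m ⊕ Fin n)) =>
    ∀ p q, leRel lo hi p q → e p ≤ e q) (fun e => e (Sum.inl x) < e (Sum.inr y))).trans
    (Equiv.subtypeEquivRight (fun e => ?_))
  constructor
  · rintro ⟨h1, h2⟩ p q hpq
    rcases p with u | u <;> rcases q with v | v
    · exact h1 _ _ hpq
    · simp only [leRel, lo', lt_max_iff, lt_min_iff] at hpq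
      rcases hpq with hpq | ⟨h3, h4⟩
      · exact h1 _ _ hpq
      · have h5 : e (Sum.inl u) ≤ e (Sum.inl x) := h1 _ _ (by simp only [leRel]; omega)
        have h6 : e (Sum.inr y) ≤ e (Sum.inr v) := h1 _ _ (by simp only [leRel]; omega)
        exact (h5.trans h2.le).trans h6
    · exact h1 _ _ hpq
    · exact h1 _ _ hpq
  · intro h1
    refine ⟨fun p q hpq => ?_, ?_⟩
    · rcases p with u | u <;> rcases q with v | v
      · exact h1 _ _ hpq
      · refine h1 _ _ ?_
        simp only [leRel] at hpq ⊢
        exact lt_of_lt_of_le hpq (le_max_left _ _)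
      · exact h1 _ _ hpq
      · exact h1 _ _ hpq
    · refine lt_of_le_of_ne (h1 _ _ ?_) ?_
      · simp only [leRel, lo']; omega
      · intro h2
        have := e.injective h2
        simp at this

end Pool.Agent.H522.W2
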