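import Mathlib

/-!
# Linear extensions, balance constants, and the class `𝒟` of finite posets

Definitions of problem `MP_33fb9b_co`.
-/

set_option autoImplicit false

namespace Pool.Agent.H522.W2

/-- The linear extensions of the finite poset `P`: the order preserving bijections of `P` onto
`{0, …, |P| - 1}`. -/
def LinExt (P : Type) [Fintype P] [PartialOrder P] : Type :=
  {e : P ≃ Fin (Fintype.card P) // ∀ x y, x ≤ y → e x ≤ e y}

/-- The probability `ℙ(x ≺ y)` that `x` comes before `y` in a linear extension of `P` chosen uniformly at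
random (it is `0` for `x = y`). -/
noncomputable def prob (P : Type) [Fintype P] [PartialOrder P] (x y : P) : ℝ :=
  (Nat.card {e : LinExt P // e.1 x < e.1 y} : ℝ) / (Nat.card (LinExt P) : ℝ)

/-- The balance constant `δ(P)`: the maximum of `min (ℙ(x ≺ y)) (ℙ(y ≺ x))` over all pairs `(x, y)`. -/
noncomputable def balance (P : Type) [Fintype P] [PartialOrder P] : ℝ :=
  ⨆ p : P × P, min (prob P p.1 p.2) (prob P p.2 p.1)

/-- The class `𝒟`: the smallest class of posets which contains the one-element poset and the three-element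
poset with exactly one relation (`Fin 2 ⊕ Unit`: a chain of two elements and a third element incomparable to
both) and which is closed under direct sums `P ⊕ₗ Q` (every element of `P` is below every element of `Q`) and
isomorphisms. These are the posets isomorphic to `S₁ ⊕ ⋯ ⊕ S_k`, `k ≥ 1`, with all `S_i` one of the two. -/
inductive InD : (P : Type) → PartialOrder P → Prop
  | one : InD Unit inferInstance
  | three : InD (Fin 2 ⊕ Unit) inferInstance
  | sum {P Q : Type} {p : PartialOrder P} {q : PartialOrder Q} :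
      InD P p → InD Q q → InD (P ⊕ₗ Q) inferInstance
  | iso {P Q : Type} {p : PartialOrder P} {q : PartialOrder Q} (f : P ≃o Q) : InD P p → InD Q q

/-- In a poset of the class `𝒟` no element is incomparable to three others. -/
theorem InD.few {P : Type} {p : PartialOrder P} (h : InD P p) :
    ∀ x y₁ y₂ y₃ : P, ¬ x ≤ y₁ → ¬ y₁ ≤ x → ¬ x ≤ y₂ → ¬ y₂ ≤ x → ¬ x ≤ y₃ → ¬ y₃ ≤ x →
      y₁ = y₂ ∨ y₁ = y₃ ∨ y₂ = y₃ := by
  induction h with
  | one => intro x y₁ y₂ y₃ h1; exact absurd le_rfl h1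
  | three =>
    have key : ∀ x y₁ y₂ y₃ : Fin 2 ⊕ Unit, x ≠ y₁ → x ≠ y₂ → x ≠ y₃ →
        y₁ = y₂ ∨ y₁ = y₃ ∨ y₂ = y₃ := by
      decide
    intro x y₁ y₂ y₃ h1 _ h2 _ h3 _
    exact key x y₁ y₂ y₃ (fun h => h1 h.le) (fun h => h2 h.le) (fun h => h3 h.le)
  | @sum P Q p q _ _ ihP ihQ =>
    intro x y₁ y₂ y₃ h1 h1' h2 h2' h3 h3'
    rcases x with x | x <;> rcases y₁ with y₁ | y₁ <;> rcases y₂ with y₂ | y₂ <;> rcases y₃ with y₃ | y₃
    all_goals
      first
      | exact absurd (Sum.Lex.toLex_le_toLex.2 (Sum.Lex.sep _ _)) h1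
      | exact absurd (Sum.Lex.toLex_le_toLex.2 (Sum.Lex.sep _ _)) h1'
      | exact absurd (Sum.Lex.toLex_le_toLex.2 (Sum.Lex.sep _ _)) h2
      | exact absurd (Sum.Lex.toLex_le_toLex.2 (Sum.Lex.sep _ _)) h2'
      | exact absurd (Sum.Lex.toLex_le_toLex.2 (Sum.Lex.sep _ _)) h3
      | exact absurd (Sum.Lex.toLex_le_toLex.2 (Sum.Lex.sep _ _)) h3'
      | skip
    · have := ihP x y₁ y₂ y₃ (fun h => h1 (Sum.Lex.toLex_le_toLex.2 (Sum.Lex.inl h)))
        (fun h => h1' (Sum.Lex.toLex_le_toLex.2 (Sum.Lex.inl h)))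
        (fun h => h2 (Sum.Lex.toLex_le_toLex.2 (Sum.Lex.inl h)))
        (fun h => h2' (Sum.Lex.toLex_le_toLex.2 (Sum.Lex.inl h)))
        (fun h => h3 (Sum.Lex.toLex_le_toLex.2 (Sum.Lex.inl h)))
        (fun h => h3' (Sum.Lex.toLex_le_toLex.2 (Sum.Lex.inl h)))
      rcases this with h | h | h
      · exact Or.inl (by rw [h])
      · exact Or.inr (Or.inl (by rw [h]))
      · exact Or.inr (Or.inr (by rw [h]))
    · have := ihQ x y₁ y₂ y₃ (fun h => h1 (Sum.Lex.toLex_le_toLex.2 (Sum.Lex.inr h)))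
        (fun h => h1' (Sum.Lex.toLex_le_toLex.2 (Sum.Lex.inr h)))
        (fun h => h2 (Sum.Lex.toLex_le_toLex.2 (Sum.Lex.inr h)))
        (fun h => h2' (Sum.Lex.toLex_le_toLex.2 (Sum.Lex.inr h)))
        (fun h => h3 (Sum.Lex.toLex_le_toLex.2 (Sum.Lex.inr h)))
        (fun h => h3' (Sum.Lex.toLex_le_toLex.2 (Sum.Lex.inr h)))
      rcases this with h | h | h
      · exact Or.inl (by rw [h])
      · exact Or.inr (Or.inl (by rw [h]))
      · exact Or.inr (Or.inr (by rw [h]))
  | @iso P Q p q f _ ih =>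
    intro x y₁ y₂ y₃ h1 h1' h2 h2' h3 h3'
    have := ih (f.symm x) (f.symm y₁) (f.symm y₂) (f.symm y₃) (by simpa using h1) (by simpa using h1')
      (by simpa using h2) (by simpa using h2') (by simpa using h3) (by simpa using h3')
    simpa using this

end Pool.Agent.H522.W2
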