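import Pool.Agent.H522.W2.Defs

/-!
# Linear extensions as lists
-/

set_option autoImplicit false

namespace Pool.Agent.H522.W2

variable {X : Type} [Fintype X] [DecidableEq X]

/-- bijections onto `Fin |X|` which respect the relation `r` -/
def Ext (r : X → X → Prop) : Type := {e : X ≃ Fin (Fintype.card X) // ∀ x y, r x y → e x ≤ e y}

/-- the lists of all elements without repetitions in which no element is related to an earlier one -/
def GoodList (r : X → X → Prop) (l : List X) : Prop :=
  l.Nodup ∧ (∀ x, x ∈ l) ∧ l.Pairwise (fun x y => ¬ r y x)

theorem card_ext (r : X → X → Prop) : Nat.card (Ext r) = Nat.card {l : List X // GoodList r l} := by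
  classical
  refine Nat.card_congr (Equiv.ofBijective
    (fun e => ⟨List.ofFn (fun k => e.1.symm k), ?_, ?_, ?_⟩) ⟨?_, ?_⟩)
  · exact List.nodup_ofFn_ofInjective e.1.symm.injective
  · intro x
    rw [List.mem_ofFn]
    exact ⟨e.1 x, by simp⟩
  · rw [List.pairwise_ofFn]
    intro i j hij hr
    have := e.2 _ _ hr
    simp only [Equiv.apply_symm_apply] at this
    exact absurd this (not_le.2 hij)
  · intro e f h
    have h0 : List.ofFn (fun k => e.1.symm k) = List.ofFn (fun k => f.1.symm k) :=
      congrArg Subtype.val h
    have h1 := List.ofFn_injective h0
    apply Subtype.ext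
    have h2 : e.1.symm = f.1.symm := Equiv.ext (fun k => congrFun h1 k)
    simpa using congrArg Equiv.symm h2
  · rintro ⟨l, hn, hm, hp⟩
    have hlen : l.length = Fintype.card X := by
      rw [← List.toFinset_card_of_nodup hn]
      have : l.toFinset = Finset.univ := by
        ext x; simp [hm x]
      rw [this, Finset.card_univ]
    let g : Fin l.length ≃ X := hn.getEquivOfForallMemList l hm
    have hg : ∀ i, g i = l.get i := fun i => rfl
    let e : X ≃ Fin (Fintype.card X) := g.symm.trans (finCongr hlen)
    refine ⟨⟨e, ?_⟩, ?_⟩
    · intro x y hxy
      by_contra hc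
      rw [not_le] at hc
      have hc' : g.symm y < g.symm x := by
        have := Fin.lt_def.1 hc
        exact Fin.lt_def.2 this
      rw [List.pairwise_iff_get] at hp
      have := hp _ _ hc'
      rw [← hg, ← hg] at this
      simp only [Equiv.apply_symm_apply] at this
      exact this hxy
    · apply Subtype.ext
      simp only
      have : (fun k : Fin (Fintype.card X) => e.symm k) = fun k => l.get (Fin.cast hlen.symm k) := by
        funext k
        simp [e, hg]
      rw [this]
      apply List.ext_get
      · simp [hlen]
      · intro n h1 h2
        simp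

end Pool.Agent.H522.W2
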