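import Pool.Agent.H522.W2.DP

/-!
# A poset of width two with balance constant `0.34884237…`
-/

set_option autoImplicit false

namespace Pool.Agent.H522.W2

/-- The order of the strip is a partial order. -/
@[reducible]
def stripOrder {m n : ℕ} {lo hi : ℕ → ℕ} (h : IsStrip m n lo hi) : PartialOrder (Fin m ⊕ Fin n) where
  le := leRel lo hi
  lt := fun a b => leRel lo hi a b ∧ ¬ leRel lo hi b a
  lt_iff_le_not_ge := fun _ _ => Iff.rfl
  le_refl := by
    rintro (x | x)
    · exact le_rfl
    · exact le_rfl
  le_trans := by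
    rintro (x | x) (y | y) (z | z) h1 h2 <;> simp only [leRel] at h1 h2 ⊢ <;> have hx := x.2 <;>
      have hy := y.2 <;> have hz := z.2
    · omega
    · have := h.lo_lip (d := x.1 + z.1 + 1) (e := y.1 + z.1 + 1) (by omega) (by omega)
      omega
    · by_contra hc
      have h3 := h.hi_mono (d := z.1 + y.1 + 1) (e := x.1 + y.1 + 1) (by omega) (by omega)
      have h4 := h.lo_lip (d := z.1 + y.1 + 1) (e := x.1 + y.1 + 1) (by omega) (by omega)
      have h5 := h.le (z.1 + y.1 + 1) (by omega)
      omega
    · have := h.lo_mono (d := x.1 + y.1 + 1) (e := x.1 + z.1 + 1) (by omega) (by omega)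
      omega
    · have := h.hi_lip (d := y.1 + x.1 + 1) (e := z.1 + x.1 + 1) (by omega) (by omega)
      omega
    · by_contra hc
      have h3 := h.lo_mono (d := y.1 + z.1 + 1) (e := y.1 + x.1 + 1) (by omega) (by omega)
      have h5 := h.le (y.1 + x.1 + 1) (by omega)
      omega
    · have := h.hi_mono (d := z.1 + x.1 + 1) (e := z.1 + y.1 + 1) (by omega) (by omega)
      omega
    · omega
  le_antisymm := by
    rintro (x | x) (y | y) h1 h2 <;> simp only [leRel] at h1 h2 <;> have hx := x.2 <;> have hy := y.2
    · exact congrArg Sum.inl (Fin.ext (by omega))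
    · exfalso
      have h5 := h.le (x.1 + y.1 + 1) (by omega)
      omega
    · exfalso
      have h5 := h.le (y.1 + x.1 + 1) (by omega)
      omega
    · exact congrArg Sum.inr (Fin.ext (by omega))

/-- the lower boundary -/
def lo58 (d : ℕ) : ℕ :=
  59484208144287327052564688338051637160972982179667113467897376764467451274226317539672064 / 32 ^ d % 32

/-- the upper boundary -/
def hi58 (d : ℕ) : ℕ :=
  59548439592930014927106086862794925212546254625250343981792861972952921786677927014892576 / 32 ^ d % 32

theorem strip58 : IsStrip 29 29 lo58 hi58 where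
  lo0 := by decide +kernel
  hi0 := by decide +kernel
  loN := by decide +kernel
  hiN := by decide +kernel
  lom := by decide +kernel
  lol := by decide +kernel
  him := by decide +kernel
  hil := by decide +kernel
  le := by
    have : ∀ d < 59, lo58 d ≤ hi58 d := by decide +kernel
    intro d hd
    exact this d (by omega)

theorem total58 : total 58 lo58 hi58 = 15879165531984 := by decide +kernel

theorem first58 : total 58 (lo' lo58 0 0) hi58 = 5539325797368 := by decide +kernel

theorem check58 : ∀ x < 29, ∀ y < 29, lo58 (x + y + 1) ≤ x → x + 1 ≤ hi58 (x + y + 1) →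
    total 58 (lo' lo58 x y) hi58 ≤ 5539325797368 ∨
      15879165531984 ≤ 5539325797368 + total 58 (lo' lo58 x y) hi58 := by
  decide +kernel

/-! ### General facts -/

section General

variable {P : Type} [Fintype P] [PartialOrder P]

instance : Finite (LinExt P) := by
  unfold LinExt
  infer_instance

theorem prob_nonneg (x y : P) : 0 ≤ prob P x y := by
  unfold prob; positivity

theorem prob_eq_zero {x y : P} (h : y ≤ x) : prob P x y = 0 := by
  have : IsEmpty {e : LinExt P // e.1 x < e.1 y} := ⟨fun e => absurd (e.1.2 _ _ h) (not_le.2 e.2)⟩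
  unfold prob
  rw [Nat.card_of_isEmpty]
  simp

theorem card_add {x y : P} (h : x ≠ y) :
    Nat.card {e : LinExt P // e.1 x < e.1 y} + Nat.card {e : LinExt P // e.1 y < e.1 x} =
      Nat.card (LinExt P) := by
  classical
  rw [← Nat.card_sum]
  refine Nat.card_congr ?_
  refine (Equiv.sumCongr (Equiv.refl _) (Equiv.subtypeEquivRight (fun e => ?_))).trans
    (Equiv.sumCompl (fun e : LinExt P => e.1 x < e.1 y))
  rw [not_lt]
  constructor
  · exact le_of_lt
  · intro h1
    exact lt_of_le_of_ne h1 (fun h2 => h (e.1.injective h2).symm)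

end General

section Final

/-- the poset -/
def P58 : Type := Fin 29 ⊕ Fin 29

instance : Fintype P58 := inferInstanceAs (Fintype (Fin 29 ⊕ Fin 29))

instance : PartialOrder P58 := stripOrder strip58

/-- the elements of the first chain -/
def aa (x : Fin 29) : P58 := Sum.inl x

/-- the elements of the second chain -/
def bb (x : Fin 29) : P58 := Sum.inr x

theorem aa_ne_bb (x y : Fin 29) : aa x ≠ bb y := by
  intro h
  exact absurd h Sum.inl_ne_inr

theorem card58 : Nat.card (LinExt P58) = 15879165531984 := by
  have := card_ext_total strip58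
  rw [show (29 : ℕ) + 29 = 58 from rfl, total58] at this
  exact this

theorem before58 (x y : Fin 29) (hxy : x.1 + 1 ≤ hi58 (x.1 + y.1 + 1)) :
    Nat.card {e : LinExt P58 // e.1 (aa x) < e.1 (bb y)} =
      total 58 (lo' lo58 x.1 y.1) hi58 :=
  card_before strip58 x y hxy

theorem cross58 (x y : Fin 29) : min (prob P58 (aa x) (bb y))
    (prob P58 (bb y) (aa x)) ≤ 76935080519 / 220543965722 := by
  by_cases h1 : aa x ≤ bb y
  · rw [prob_eq_zero (x := bb y) (y := aa x) h1]
    exact (min_le_right _ _).trans (by norm_num)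
  by_cases h2 : bb y ≤ aa x
  · rw [prob_eq_zero (x := aa x) (y := bb y) h2]
    exact (min_le_left _ _).trans (by norm_num)
  have h1' : ¬ x.1 < lo58 (x.1 + y.1 + 1) := h1
  have h2' : ¬ hi58 (x.1 + y.1 + 1) ≤ x.1 := h2
  have hb := before58 x y (by omega)
  have hadd := card_add (aa_ne_bb x y)
  have hT := card58
  have hc := check58 x.1 x.2 y.1 y.2 (by omega) (by omega)
  rw [hT, hb] at hadd
  unfold prob
  rw [hT, hb]
  rcases hc with hc | hc
  · refine (min_le_left _ _).trans ?_
    rw [div_le_div_iff₀ (by norm_num) (by norm_num)]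
    have : ((total 58 (lo' lo58 x.1 y.1) hi58 : ℕ) : ℝ) ≤ 5539325797368 := by exact_mod_cast hc
    push_cast
    linarith
  · refine (min_le_right _ _).trans ?_
    rw [div_le_div_iff₀ (by norm_num) (by norm_num)]
    have h3 : Nat.card {e : LinExt P58 // e.1 (bb y) < e.1 (aa x)} ≤ 5539325797368 := by
      omega
    have : ((Nat.card {e : LinExt P58 // e.1 (bb y) < e.1 (aa x)} : ℕ) : ℝ) ≤
        5539325797368 := by exact_mod_cast h3
    push_cast
    linarith

theorem cases58 (p : P58) : (∃ x, p = aa x) ∨ ∃ y, p = bb y := by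
  rcases p with x | y
  · exact Or.inl ⟨x, rfl⟩
  · exact Or.inr ⟨y, rfl⟩

theorem balance58 : balance P58 = 76935080519 / 220543965722 := by
  unfold balance
  apply le_antisymm
  · have : Nonempty (P58 × P58) := ⟨(aa 0, aa 0)⟩
    refine ciSup_le (fun p => ?_)
    rcases p with ⟨p, q⟩
    rcases cases58 p with ⟨p, rfl⟩ | ⟨p, rfl⟩ <;> rcases cases58 q with ⟨q, rfl⟩ | ⟨q, rfl⟩
    · rcases le_total p.1 q.1 with h | h
      · simp only
        rw [prob_eq_zero (x := aa q) (y := aa p) h]
        exact (min_le_right _ _).trans (by norm_num)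
      · simp only
        rw [prob_eq_zero (x := aa p) (y := aa q) h]
        exact (min_le_left _ _).trans (by norm_num)
    · exact cross58 p q
    · simp only
      rw [min_comm]
      exact cross58 q p
    · rcases le_total p.1 q.1 with h | h
      · simp only
        rw [prob_eq_zero (x := bb q) (y := bb p) h]
        exact (min_le_right _ _).trans (by norm_num)
      · simp only
        rw [prob_eq_zero (x := bb p) (y := bb q) h]
        exact (min_le_left _ _).trans (by norm_num)
  · have hb := before58 0 0 (by decide +kernel)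
    have hadd := card_add (aa_ne_bb 0 0)
    have hT := card58
    have h0 : total 58 (lo' lo58 (0 : Fin 29).1 (0 : Fin 29).1) hi58 = 5539325797368 := first58
    rw [hT, hb, h0] at hadd
    have h2 : Nat.card {e : LinExt P58 // e.1 (bb 0) < e.1 (aa 0)} = 10339839734616 := by
      omega
    have key : (76935080519 / 220543965722 : ℝ) ≤
        min (prob P58 (aa 0) (bb 0)) (prob P58 (bb 0) (aa 0)) := by
      unfold prob
      rw [hT, hb, h0, h2]
      norm_num
    exact key.trans (le_ciSup (f := fun p : P58 × P58 => min (prob P58 p.1 p.2) (prob P58 p.2 p.1))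
      (Set.finite_range _).bddAbove (aa 0, bb 0))

theorem notInD58 : ¬ InD P58 inferInstance := by
  intro h
  have := h.few (aa 0) (bb 0) (bb 1) (bb 2)
    (show ¬ leRel lo58 hi58 (Sum.inl 0) (Sum.inr 0) from by simp only [leRel]; decide +kernel)
    (show ¬ leRel lo58 hi58 (Sum.inr 0) (Sum.inl 0) from by simp only [leRel]; decide +kernel)
    (show ¬ leRel lo58 hi58 (Sum.inl 0) (Sum.inr 1) from by simp only [leRel]; decide +kernel)
    (show ¬ leRel lo58 hi58 (Sum.inr 1) (Sum.inl 0) from by simp only [leRel]; decide +kernel)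
    (show ¬ leRel lo58 hi58 (Sum.inl 0) (Sum.inr 2) from by simp only [leRel]; decide +kernel)
    (show ¬ leRel lo58 hi58 (Sum.inr 2) (Sum.inl 0) from by simp only [leRel]; decide +kernel)
  have h1 : bb 0 ≠ bb 1 := fun h => absurd (Sum.inr.inj h) (by decide)
  have h2 : bb 0 ≠ bb 2 := fun h => absurd (Sum.inr.inj h) (by decide)
  have h3 : bb 1 ≠ bb 2 := fun h => absurd (Sum.inr.inj h) (by decide)
  rcases this with h | h | h
  · exact h1 h
  · exact h2 h
  · exact h3 h

/-- width two: two of any three elements are comparable -/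
theorem width58 (x y z : P58) : x ≤ y ∨ y ≤ x ∨ x ≤ z ∨ z ≤ x ∨ y ≤ z ∨ z ≤ y := by
  have haa : ∀ p q : Fin 29, aa p ≤ aa q ∨ aa q ≤ aa p := fun p q => le_total p.1 q.1
  have hbb : ∀ p q : Fin 29, bb p ≤ bb q ∨ bb q ≤ bb p := fun p q => le_total p.1 q.1
  rcases cases58 x with ⟨x, rfl⟩ | ⟨x, rfl⟩ <;> rcases cases58 y with ⟨y, rfl⟩ | ⟨y, rfl⟩ <;>
    rcases cases58 z with ⟨z, rfl⟩ | ⟨z, rfl⟩
  · rcases haa x y with h | h <;> tauto
  · rcases haa x y with h | h <;> tauto
  · rcases haa x z with h | h <;> tauto
  · rcases hbb y z with h | h <;> tauto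
  · rcases haa y z with h | h <;> tauto
  · rcases hbb x z with h | h <;> tauto
  · rcases hbb x y with h | h <;> tauto
  · rcases hbb x y with h | h <;> tauto

theorem fcard58 : Fintype.card P58 = 58 := by
  have : Fintype.card P58 = Fintype.card (Fin 29 ⊕ Fin 29) := rfl
  rw [this, Fintype.card_sum, Fintype.card_fin]

end Final

/-- `β` -/
theorem lt_beta : (76935080519 / 220543965722 : ℝ) < (5864893 + 27 * √57) / 16812976 := by
  have h : (7.5498 : ℝ) < √57 := by
    rw [Real.lt_sqrt (by norm_num)]
    norm_num
  rw [div_lt_div_iff₀ (by norm_num) (by norm_num)]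
  nlinarith

end Pool.Agent.H522.W2
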