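import Pool.Agent.H522.W2.Lists

/-!
# Counting the linear extensions of a poset of width two

The poset consists of two chains `a_0 < a_1 < …` and `b_0 < b_1 < …` of `m` and `n` elements. After `d` steps a
linear extension has used `i` elements of the first chain and `d - i` elements of the second one, where
`lo d ≤ i ≤ hi d`.
-/

set_option autoImplicit false

namespace Pool.Agent.H522.W2

/-- boundaries of a strip -/
structure IsStrip (m n : ℕ) (lo hi : ℕ → ℕ) : Prop where
  lo0 : lo 0 = 0
  hi0 : hi 0 = 0
  loN : lo (m + n) = m
  hiN : hi (m + n) = m
  lom : ∀ d < m + n, lo d ≤ lo (d + 1)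
  lol : ∀ d < m + n, lo (d + 1) ≤ lo d + 1
  him : ∀ d < m + n, hi d ≤ hi (d + 1)
  hil : ∀ d < m + n, hi (d + 1) ≤ hi d + 1
  le : ∀ d ≤ m + n, lo d ≤ hi d

namespace IsStrip

variable {m n : ℕ} {lo hi : ℕ → ℕ}

theorem lo_mono (h : IsStrip m n lo hi) {d e : ℕ} (hde : d ≤ e) (he : e ≤ m + n) : lo d ≤ lo e := by
  induction e, hde using Nat.le_induction with
  | base => exact le_rfl
  | succ k hk ih => exact (ih (by omega)).trans (h.lom k (by omega))

theorem hi_mono (h : IsStrip m n lo hi) {d e : ℕ} (hde : d ≤ e) (he : e ≤ m + n) : hi d ≤ hi e := by
  induction e, hde using Nat.le_induction with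
  | base => exact le_rfl
  | succ k hk ih => exact (ih (by omega)).trans (h.him k (by omega))

theorem lo_lip (h : IsStrip m n lo hi) {d e : ℕ} (hde : d ≤ e) (he : e ≤ m + n) : lo e + d ≤ lo d + e := by
  induction e, hde using Nat.le_induction with
  | base => exact le_rfl
  | succ k hk ih =>
    have := ih (by omega)
    have := h.lol k (by omega)
    omega

theorem hi_lip (h : IsStrip m n lo hi) {d e : ℕ} (hde : d ≤ e) (he : e ≤ m + n) : hi e + d ≤ hi d + e := by
  induction e, hde using Nat.le_induction with
  | base => exact le_rfl
  | succ k hk ih =>
    have := ih (by omega)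
    have := h.hil k (by omega)
    omega

theorem hi_le (h : IsStrip m n lo hi) {d : ℕ} (hd : d ≤ m + n) : hi d ≤ m := by
  have := h.hi_mono hd le_rfl
  rw [h.hiN] at this
  exact this

theorem le_lo (h : IsStrip m n lo hi) {d : ℕ} (hd : d ≤ m + n) : d ≤ lo d + n := by
  have := h.lo_lip hd le_rfl
  rw [h.loN] at this
  omega

end IsStrip

/-- the order of the strip -/
def leRel {m n : ℕ} (lo hi : ℕ → ℕ) : Fin m ⊕ Fin n → Fin m ⊕ Fin n → Prop
  | .inl x, .inl y => x.1 ≤ y.1
  | .inr x, .inr y => x.1 ≤ y.1
  | .inl x, .inr y => x.1 < lo (x.1 + y.1 + 1)
  | .inr y, .inl x => hi (x.1 + y.1 + 1) ≤ x.1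

/-- the elements which remain when `i` elements of the first and `j` elements of the second chain are used -/
def rem {m n : ℕ} (i j : ℕ) : Fin m ⊕ Fin n → Prop
  | .inl x => i ≤ x.1
  | .inr y => j ≤ y.1

/-- the lists of the remaining elements -/
def gen (m n : ℕ) (lo hi : ℕ → ℕ) : ℕ → ℕ → ℕ → List (List (Fin m ⊕ Fin n))
  | 0, _, _ => [[]]
  | k + 1, i, j =>
    (if h : i < m ∧ i + 1 ≤ hi (i + j + 1) then
      (gen m n lo hi k (i + 1) j).map (List.cons (Sum.inl ⟨i, h.1⟩)) else []) ++
    (if h : j < n ∧ lo (i + j + 1) ≤ i then
      (gen m n lo hi k i (j + 1)).map (List.cons (Sum.inr ⟨j, h.1⟩)) else [])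

/-- the admissible lists -/
def Good {m n : ℕ} (lo hi : ℕ → ℕ) (i j : ℕ) (l : List (Fin m ⊕ Fin n)) : Prop :=
  l.Nodup ∧ (∀ x, x ∈ l ↔ rem i j x) ∧ l.Pairwise (fun x y => ¬ leRel lo hi y x)

variable {m n : ℕ} {lo hi : ℕ → ℕ}

theorem mem_gen (h : IsStrip m n lo hi) (k : ℕ) : ∀ (i j : ℕ) (l : List (Fin m ⊕ Fin n)),
    i + j + k = m + n → lo (i + j) ≤ i → i ≤ hi (i + j) → (l ∈ gen m n lo hi k i j ↔ Good lo hi i j l) := by
  induction k with
  | zero =>
    intro i j l hk h1 h2
    have hd : i + j = m + n := by omega
    rw [hd, h.loN] at h1
    rw [hd, h.hiN] at h2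
    have hi' : i = m := by omega
    have hj' : j = n := by omega
    subst hi' hj'
    simp only [gen, List.mem_singleton]
    constructor
    · rintro rfl
      refine ⟨List.nodup_nil, fun x => ?_, List.Pairwise.nil⟩
      simp only [List.not_mem_nil, false_iff]
      rcases x with x | x
      · simp only [rem]; omega
      · simp only [rem]; omega
    · rintro ⟨_, hm, _⟩
      rw [List.eq_nil_iff_forall_not_mem]
      intro x hx
      have := (hm x).1 hx
      rcases x with x | x
      · simp only [rem] at this; omega
      · simp only [rem] at this; omega
  | succ k ih =>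
    intro i j l hk h1 h2
    have hdN : i + j + 1 ≤ m + n := by omega
    have hl1 := h.lom (i + j) (by omega)
    have hl2 := h.lol (i + j) (by omega)
    have hh1 := h.him (i + j) (by omega)
    have hh2 := h.hil (i + j) (by omega)
    have hhm := h.hi_le hdN
    have hln := h.le_lo hdN
    have hlh := h.le _ hdN
    simp only [gen, List.mem_append]
    constructor
    · rintro (hl | hl)
      · split_ifs at hl with hc
        · rw [List.mem_map] at hl
          obtain ⟨l', hl', rfl⟩ := hl
          rw [ih (i + 1) j l' (by omega) (by rw [show i + 1 + j = i + j + 1 by omega]; omega)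
            (by rw [show i + 1 + j = i + j + 1 by omega]; exact hc.2)] at hl'
          obtain ⟨g1, g2, g3⟩ := hl'
          refine ⟨List.nodup_cons.2 ⟨fun hx => ?_, g1⟩, fun x => ?_, List.pairwise_cons.2 ⟨fun x hx => ?_, g3⟩⟩
          · have := (g2 _).1 hx
            simp only [rem] at this; omega
          · rw [List.mem_cons, g2]
            rcases x with x | x
            · simp only [rem, Sum.inl.injEq, Fin.ext_iff]; omega
            · simp [rem]
          · have := (g2 _).1 hx
            rcases x with x | x
            · simp only [rem] at this
              simp only [leRel]; omega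
            · simp only [rem] at this
              simp only [leRel]
              have hx2 := x.2
              have := h.hi_mono (d := i + j + 1) (e := i + x.1 + 1) (by omega) (by omega)
              omega
        · simp at hl
      · split_ifs at hl with hc
        · rw [List.mem_map] at hl
          obtain ⟨l', hl', rfl⟩ := hl
          rw [ih i (j + 1) l' (by omega) (by rw [show i + (j + 1) = i + j + 1 by omega]; exact hc.2)
            (by rw [show i + (j + 1) = i + j + 1 by omega]; omega)] at hl'
          obtain ⟨g1, g2, g3⟩ := hl'
          refine ⟨List.nodup_cons.2 ⟨fun hx => ?_, g1⟩, fun x => ?_, List.pairwise_cons.2 ⟨fun x hx => ?_, g3⟩⟩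
          · have := (g2 _).1 hx
            simp only [rem] at this; omega
          · rw [List.mem_cons, g2]
            rcases x with x | x
            · simp [rem]
            · simp only [rem, Sum.inr.injEq, Fin.ext_iff]; omega
          · have := (g2 _).1 hx
            rcases x with x | x
            · simp only [rem] at this
              simp only [leRel]
              have hx2 := x.2
              have := h.lo_lip (d := i + j + 1) (e := x.1 + j + 1) (by omega) (by omega)
              omega
            · simp only [rem] at this
              simp only [leRel]; omega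
        · simp at hl
    · rintro ⟨g1, g2, g3⟩
      rcases l with _ | ⟨p, l⟩
      · exfalso
        by_cases hi' : i < m
        · have := (g2 (Sum.inl ⟨i, hi'⟩)).2 (by simp [rem])
          simp at this
        · have := (g2 (Sum.inr ⟨j, by omega⟩)).2 (by simp [rem])
          simp at this
      · rw [List.nodup_cons] at g1
        rw [List.pairwise_cons] at g3
        have hp := (g2 p).1 (by simp)
        rcases p with x | x
        · left
          simp only [rem] at hp
          have hx2 := x.2
          have hxi : x.1 = i := by
            by_contra hne
            have hm1 := (g2 (Sum.inl ⟨i, by omega⟩)).2 (by simp [rem])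
            rw [List.mem_cons] at hm1
            rcases hm1 with hm1 | hm1
            · rw [Sum.inl.injEq] at hm1
              exact hne (by rw [← hm1])
            · have := g3.1 _ hm1
              simp only [leRel] at this
              omega
          have hc : i + 1 ≤ hi (i + j + 1) := by
            by_contra hne
            have hj : j < n := by omega
            have hm1 := (g2 (Sum.inr ⟨j, hj⟩)).2 (by simp [rem])
            rw [List.mem_cons] at hm1
            rcases hm1 with hm1 | hm1
            · simp at hm1
            · have := g3.1 _ hm1
              simp only [leRel] at this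
              rw [hxi] at this
              omega
          rw [dif_pos ⟨by omega, hc⟩, List.mem_map]
          refine ⟨l, ?_, ?_⟩
          · rw [ih (i + 1) j l (by omega) (by rw [show i + 1 + j = i + j + 1 by omega]; omega)
              (by rw [show i + 1 + j = i + j + 1 by omega]; exact hc)]
            refine ⟨g1.2, fun y => ?_, g3.2⟩
            have hy := g2 y
            rw [List.mem_cons] at hy
            rcases y with y | y
            · simp only [rem, Sum.inl.injEq] at hy ⊢
              constructor
              · intro hyl
                have h3 := hy.1 (Or.inr hyl)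
                have h4 : y.1 ≠ i := by
                  intro h5
                  apply g1.1
                  have : y = x := Fin.ext (by rw [h5, hxi])
                  rw [← this]; exact hyl
                omega
              · intro hyi
                rcases hy.2 (by omega) with h3 | h3
                · exfalso; rw [h3] at hyi; omega
                · exact h3
            · simpa [rem] using hy
          · congr 2
            exact Fin.ext hxi.symm
        · right
          simp only [rem] at hp
          have hx2 := x.2
          have hxi : x.1 = j := by
            by_contra hne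
            have hm1 := (g2 (Sum.inr ⟨j, by omega⟩)).2 (by simp [rem])
            rw [List.mem_cons] at hm1
            rcases hm1 with hm1 | hm1
            · rw [Sum.inr.injEq] at hm1
              exact hne (by rw [← hm1])
            · have := g3.1 _ hm1
              simp only [leRel] at this
              omega
          have hc : lo (i + j + 1) ≤ i := by
            by_contra hne
            have hj : i < m := by omega
            have hm1 := (g2 (Sum.inl ⟨i, hj⟩)).2 (by simp [rem])
            rw [List.mem_cons] at hm1
            rcases hm1 with hm1 | hm1
            · simp at hm1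
            · have := g3.1 _ hm1
              simp only [leRel] at this
              rw [hxi] at this
              omega
          rw [dif_pos ⟨by omega, hc⟩, List.mem_map]
          refine ⟨l, ?_, ?_⟩
          · rw [ih i (j + 1) l (by omega) (by rw [show i + (j + 1) = i + j + 1 by omega]; exact hc)
              (by rw [show i + (j + 1) = i + j + 1 by omega]; omega)]
            refine ⟨g1.2, fun y => ?_, g3.2⟩
            have hy := g2 y
            rw [List.mem_cons] at hy
            rcases y with y | y
            · simpa [rem] using hy
            · simp only [rem, Sum.inr.injEq] at hy ⊢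
              constructor
              · intro hyl
                have h3 := hy.1 (Or.inr hyl)
                have h4 : y.1 ≠ j := by
                  intro h5
                  apply g1.1
                  have : y = x := Fin.ext (by rw [h5, hxi])
                  rw [← this]; exact hyl
                omega
              · intro hyi
                rcases hy.2 (by omega) with h3 | h3
                · exfalso; rw [h3] at hyi; omega
                · exact h3
          · congr 2
            exact Fin.ext hxi.symm

theorem nodup_gen (m n : ℕ) (lo hi : ℕ → ℕ) (k : ℕ) : ∀ i j, (gen m n lo hi k i j).Nodup := by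
  induction k with
  | zero => intro i j; simp [gen]
  | succ k ih =>
    intro i j
    simp only [gen]
    rw [List.nodup_append]
    refine ⟨?_, ?_, ?_⟩
    · split_ifs with h
      · exact (ih _ _).map (List.cons_injective)
      · exact List.nodup_nil
    · split_ifs with h
      · exact (ih _ _).map (List.cons_injective)
      · exact List.nodup_nil
    · intro a ha b hb
      split_ifs at ha hb with h1 h2
      · rw [List.mem_map] at ha hb
        obtain ⟨a', _, rfl⟩ := ha
        obtain ⟨b', _, rfl⟩ := hb
        simp
      all_goals simp at ha hb

/-- the number of the lists -/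
def cnt (m n : ℕ) (lo hi : ℕ → ℕ) (k i j : ℕ) : ℕ := (gen m n lo hi k i j).length

theorem cnt_succ (h : IsStrip m n lo hi) (k i j : ℕ) (hk : i + j + (k + 1) = m + n) :
    cnt m n lo hi (k + 1) i j =
      (if i + 1 ≤ hi (i + j + 1) then cnt m n lo hi k (i + 1) j else 0) +
      (if lo (i + j + 1) ≤ i then cnt m n lo hi k i (j + 1) else 0) := by
  have hhm := h.hi_le (d := i + j + 1) (by omega)
  have hln := h.le_lo (d := i + j + 1) (by omega)
  have e1 : (i < m ∧ i + 1 ≤ hi (i + j + 1)) ↔ i + 1 ≤ hi (i + j + 1) := by
    constructor
    · exact fun h => h.2
    · exact fun h => ⟨by omega, h⟩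
  have e2 : (j < n ∧ lo (i + j + 1) ≤ i) ↔ lo (i + j + 1) ≤ i := by
    constructor
    · exact fun h => h.2
    · exact fun h => ⟨by omega, h⟩
  simp only [cnt, gen, List.length_append]
  congr 1
  · by_cases hc : i + 1 ≤ hi (i + j + 1)
    · rw [dif_pos (e1.2 hc), if_pos hc, List.length_map]
    · rw [dif_neg (fun h => hc (e1.1 h)), if_neg hc, List.length_nil]
  · by_cases hc : lo (i + j + 1) ≤ i
    · rw [dif_pos (e2.2 hc), if_pos hc, List.length_map]
    · rw [dif_neg (fun h => hc (e2.1 h)), if_neg hc, List.length_nil]

/-- The number of the linear extensions. -/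
theorem card_ext_strip (h : IsStrip m n lo hi) :
    Nat.card (Ext (leRel (m := m) (n := n) lo hi)) = cnt m n lo hi (m + n) 0 0 := by
  classical
  rw [card_ext]
  have e : {l : List (Fin m ⊕ Fin n) // GoodList (leRel lo hi) l} ≃
      {l : List (Fin m ⊕ Fin n) // l ∈ (gen m n lo hi (m + n) 0 0).toFinset} := by
    refine Equiv.subtypeEquivRight (fun l => ?_)
    rw [List.mem_toFinset, mem_gen h (m + n) 0 0 l (by omega) (by simp [h.lo0]) (by simp)]
    unfold GoodList Good
    constructor
    · rintro ⟨h1, h2, h3⟩
      refine ⟨h1, fun x => ?_, h3⟩
      rcases x with x | x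
      · simp [h2, rem]
      · simp [h2, rem]
    · rintro ⟨h1, h2, h3⟩
      refine ⟨h1, fun x => (h2 x).2 ?_, h3⟩
      rcases x with x | x
      · simp [rem]
      · simp [rem]
  rw [Nat.card_congr e, Nat.card_eq_fintype_card, Fintype.card_coe,
    List.toFinset_card_of_nodup (nodup_gen _ _ _ _ _ _ _)]
  rfl

end Pool.Agent.H522.W2
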